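import Pool.Agent.H18.GW.Ext

/-!
# Board gwd, row DD: the differences of the values generate a bounded subgroup
-/

set_option autoImplicit false

open scoped commutatorElement

namespace Pool.Agent.H18.GWD

open Pool.Agent.H18.GW Pool.Agent.H11.EL

theorem pf_DD (hPO : T_PO) (hPM : T_PM) (hSB : T_SB) : T_DD := by
  intro R _ hfg N hN hnil r w hW
  obtain ⟨c, hc⟩ := (Subgroup.isNilpotent_iff_lowerCentralSeries N).1 hnil
  have hv : ∀ f : Fin r → R, FreeGroup.lift f w ∈ Vb w R := fun f => mem_Vb w f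
  let D : (Fin r → R) → Subgroup R := fun g => Subgroup.closure (Set.range
    (fun h : Fin r → N => (FreeGroup.lift g w)⁻¹ * FreeGroup.lift (fun i => g i * (h i : R)) w))
  have hval : ∀ (g : Fin r → R) (h : Fin r → N),
      (FreeGroup.lift g w)⁻¹ * FreeGroup.lift (fun i => g i * (h i : R)) w ∈ Vb w R :=
    fun g h => (Vb w R).mul_mem ((Vb w R).inv_mem (hv _)) (hv _)
  have hD : ∀ g, D g ≤ Vb w R := by
    intro g
    change Subgroup.closure _ ≤ _
    rw [Subgroup.closure_le]
    rintro _ ⟨h, rfl⟩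
    exact hval g h
  have hb : ∀ g, ∃ t : ℕ, ∀ a ∈ D g,
      BP (Set.range (fun f : Fin r → R => FreeGroup.lift f w)) t a := by
    intro g
    obtain ⟨t, ht⟩ := hPM (Fin r → N) R (Vb w R) hW (fun B _ => hfg B) (c + 1)
      (fun h : Fin r → N => (FreeGroup.lift g w)⁻¹ *
        FreeGroup.lift (fun i => g i * (h i : R)) w) (hval g)
      (by
        have h1 : (fun i => g i * (((1 : Fin r → N) i : N) : R)) = g := by
          funext i
          simp
        change (FreeGroup.lift g w)⁻¹ *
          FreeGroup.lift (fun i => g i * (((1 : Fin r → N) i : N) : R)) w = 1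
        rw [h1, inv_mul_cancel])
      (hPO R N hN c hc r w g)
    refine ⟨t * 2, fun a ha => (ht a ha).trans ?_⟩
    rintro _ ⟨h, rfl⟩
    exact (BP.of_mem (Set.mem_range_self g)).inv.mul (BP.of_mem (Set.mem_range_self _))
  obtain ⟨t, ht⟩ := hSB R (Vb w R) hW (fun B _ => hfg B)
    (Set.range (fun f : Fin r → R => FreeGroup.lift f w)) (Fin r → R) D hD hb
  refine ⟨⨆ g, D g, t, ?_, fun g hg => ht g hg, ?_⟩
  · constructor
    intro n hn x
    have h1 : (⨆ g, D g) ≤ (⨆ g, D g).comap (MulAut.conj x).toMonoidHom := by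
      refine iSup_le fun g => ?_
      change Subgroup.closure _ ≤ _
      rw [Subgroup.closure_le]
      rintro _ ⟨h, rfl⟩
      have h2 : D (fun i => x * g i * x⁻¹) ≤ ⨆ g, D g := le_iSup D _
      refine h2 (Subgroup.subset_closure ?_)
      refine ⟨fun i => ⟨x * (h i : R) * x⁻¹, hN.conj_mem _ (h i).2 x⟩, ?_⟩
      have e1 := lift_map w (MulAut.conj x).toMonoidHom g
      have e2 := lift_map w (MulAut.conj x).toMonoidHom (fun i => g i * (h i : R))
      have e3 : (fun i => (MulAut.conj x).toMonoidHom (g i * (h i : R))) =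
          fun i => x * g i * x⁻¹ * (x * (h i : R) * x⁻¹) := by
        funext i
        change x * (g i * (h i : R)) * x⁻¹ = _
        group
      rw [e3] at e2
      change (FreeGroup.lift (fun i => x * g i * x⁻¹) w)⁻¹ *
        FreeGroup.lift (fun i => x * g i * x⁻¹ * (x * (h i : R) * x⁻¹)) w =
          (MulAut.conj x).toMonoidHom _
      rw [map_mul, map_inv, e1, e2]
      rfl
    exact h1 hn
  · intro g h hgh
    have h1 : D g ≤ ⨆ g, D g := le_iSup D g
    refine h1 (Subgroup.subset_closure ⟨fun i => ⟨(g i)⁻¹ * h i, hgh i⟩, ?_⟩)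
    have e : (fun i => g i * ((g i)⁻¹ * h i)) = h := by
      funext i
      rw [mul_inv_cancel_left]
    change (FreeGroup.lift g w)⁻¹ * FreeGroup.lift (fun i => g i * ((g i)⁻¹ * h i)) w = _
    rw [e]

end Pool.Agent.H18.GWD
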