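import Pool.Agent.H18.GW.Ext

/-!
# Board gwd, row FI: the lower central series of a normal subgroup is a filtration
-/

set_option autoImplicit false

open scoped commutatorElement

namespace Pool.Agent.H18.GWD

open Pool.Agent.H18.GW

/-- three subgroups -/
theorem three {R : Type} [Group R] (A B C L : Subgroup R) (hL : L.Normal)
    (h1 : ⁅⁅B, C⁆, A⁆ ≤ L) (h2 : ⁅⁅C, A⁆, B⁆ ≤ L) : ⁅⁅A, B⁆, C⁆ ≤ L := by
  have key : ∀ X Y Z : Subgroup R, ⁅⁅X, Y⁆, Z⁆ ≤ L ↔
      ⁅⁅X.map (QuotientGroup.mk' L), Y.map (QuotientGroup.mk' L)⁆,
        Z.map (QuotientGroup.mk' L)⁆ = ⊥ := by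
    intro X Y Z
    rw [← Subgroup.map_commutator, ← Subgroup.map_commutator, Subgroup.map_eq_bot_iff,
      QuotientGroup.ker_mk']
  rw [key] at h1 h2 ⊢
  exact Subgroup.commutator_commutator_eq_bot_of_rotate h1 h2

theorem lcs_comm {R : Type} [Group R] (N : Subgroup R) (hN : N.Normal) : ∀ j i : ℕ,
    ⁅N.lowerCentralSeries i, N.lowerCentralSeries j⁆ ≤ N.lowerCentralSeries (i + j + 1) := by
  intro j
  induction j with
  | zero => exact fun i => le_rfl
  | succ j ih =>
    intro i
    have hL := lcs_normal hN (i + (j + 1) + 1)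
    rw [Subgroup.commutator_comm, Subgroup.lowerCentralSeries_succ N j]
    refine three _ _ _ _ hL ?_ ?_
    · -- [[N, lcs i], lcs j]
      rw [Subgroup.commutator_comm N]
      have h1 := ih (i + 1)
      have e : i + 1 + j + 1 = i + (j + 1) + 1 := by omega
      rw [e] at h1
      exact h1
    · -- [[lcs i, lcs j], N]
      refine (Subgroup.commutator_mono (ih i) le_rfl).trans ?_
      exact le_rfl

theorem pf_FI : T_FI := by
  intro R _ N hN
  refine ⟨rfl, ?_, ?_⟩
  · intro i
    cases i with
    | zero => exact le_top
    | succ i => exact N.lowerCentralSeries_antitone (Nat.le_succ i)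
  · intro i j
    cases i with
    | zero =>
      rw [Nat.zero_add]
      cases j with
      | zero => exact le_top
      | succ j =>
        have : (fil N (j + 1)).Normal := lcs_normal hN j
        exact Subgroup.commutator_le_right _ _
    | succ i =>
      cases j with
      | zero =>
        have : (fil N (i + 1)).Normal := lcs_normal hN i
        exact Subgroup.commutator_le_left _ _
      | succ j =>
        have h1 := lcs_comm N hN j i
        have e : i + 1 + (j + 1) = (i + j + 1) + 1 := by omega
        rw [e]
        exact h1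

end Pool.Agent.H18.GWD
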