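import Pool.Agent.H18.GW.Ext

/-!
# Board gwd, row VN: words in finitely generated virtually nilpotent groups
-/

set_option autoImplicit false

open scoped commutatorElement

namespace Pool.Agent.H18.GWD

open Pool.Agent.H18.GW Pool.Agent.H11.EL

/-- subgroups of a quotient are finitely generated -/
theorem fg_quot {R Q : Type} [Group R] [Group Q] (π : R →* Q) (hπ : Function.Surjective π)
    (h : ∀ K : Subgroup R, K.FG) (K : Subgroup Q) : K.FG := by
  classical
  obtain ⟨S, hS⟩ := h (K.comap π)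
  refine ⟨S.image π, ?_⟩
  rw [Finset.coe_image, ← MonoidHom.map_closure, hS]
  exact Subgroup.map_comap_eq_self_of_surjective hπ K

theorem index_quot {R Q : Type} [Group R] [Group Q] (π : R →* Q) (hπ : Function.Surjective π)
    {N : Subgroup R} (hN : N.FiniteIndex) : (N.map π).FiniteIndex := by
  refine ⟨fun h => hN.index_ne_zero ?_⟩
  have h1 := Subgroup.index_map_dvd N hπ
  rw [h] at h1
  exact Nat.eq_zero_of_zero_dvd h1

theorem nil_quot {R Q : Type} [Group R] [Group Q] (π : R →* Q) {N : Subgroup R}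
    (hN : Group.IsNilpotent N) : Group.IsNilpotent (N.map π) := by
  obtain ⟨c, hc⟩ := (Subgroup.isNilpotent_iff_lowerCentralSeries N).1 hN
  refine (Subgroup.isNilpotent_iff_lowerCentralSeries _).2 ⟨c, ?_⟩
  rw [← Subgroup.map_lowerCentralSeries, hc, Subgroup.map_bot]

theorem pf_VN (hNV : T_NV) (hWD : T_WD) (hDD : T_DD) (hFW : T_FW) (hBX : T_BX) : T_VN := by
  intro R _ hfg N hN hNi hnil r w
  have h0 := hNV R hfg N hNi hnil
  -- step 1
  refine hBX R ⁅Vb w R, Vb w R⁆ r w (hWD R h0 N hN hNi hnil r w) ?_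
  set L1 : Subgroup R := ⁅Vb w R, Vb w R⁆ with hL1
  set π := QuotientGroup.mk' L1 with hπ
  have hs : Function.Surjective π := QuotientGroup.mk'_surjective L1
  have h1 := fg_quot π hs h0
  have hN1 : (N.map π).Normal := hN.map π hs
  have hNi1 := index_quot π hs hNi
  have hnil1 := nil_quot π hnil
  have hab : ∀ x ∈ Vb w (R ⧸ L1), ∀ y ∈ Vb w (R ⧸ L1), x * y = y * x := by
    intro x hx y hy
    rw [← Vb_map w π hs] at hx hy
    have h2 : ⁅x, y⁆ ∈ ⁅(Vb w R).map π, (Vb w R).map π⁆ :=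
      Subgroup.commutator_mem_commutator hx hy
    rw [← Subgroup.map_commutator, ← hL1, hπ, QuotientGroup.map_mk'_self,
      Subgroup.mem_bot] at h2
    exact commutatorElement_eq_one_iff_mul_comm.1 h2
  -- step 2
  obtain ⟨D, m, hDn, hDm, hDw⟩ := hDD (R ⧸ L1) h1 (N.map π) hN1 hnil1 r w hab
  refine hBX (R ⧸ L1) D r w ⟨m, hDm⟩ ?_
  set σ := QuotientGroup.mk' D with hσ
  have hs2 : Function.Surjective σ := QuotientGroup.mk'_surjective D
  have h3 := fg_quot σ hs2 h1
  have hN2 : ((N.map π).map σ).Normal := hN1.map σ hs2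
  have hNi2 := index_quot σ hs2 hNi1
  have hnil2 := nil_quot σ hnil1
  have hab2 : ∀ x ∈ Vb w ((R ⧸ L1) ⧸ D), ∀ y ∈ Vb w ((R ⧸ L1) ⧸ D), x * y = y * x := by
    intro x hx y hy
    rw [← Vb_map w σ hs2] at hx hy
    obtain ⟨a, ha, rfl⟩ := hx
    obtain ⟨b, hb, rfl⟩ := hy
    rw [← map_mul, ← map_mul, hab a ha b hb]
  -- step 3
  have hfin := hFW ((R ⧸ L1) ⧸ D) h3 ((N.map π).map σ) hN2 hNi2 hnil2 r w hab2 (by
    intro g h hgh
    have h4 : ∀ i, ∃ n ∈ N.map π, σ n = (g i)⁻¹ * h i := hgh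
    choose n hn hn' using h4
    choose g' hg' using fun i => hs2 (g i)
    have h5 := hDw g' (fun i => g' i * n i) (fun i => by rw [inv_mul_cancel_left]; exact hn i)
    have h6 : σ (FreeGroup.lift g' w) = σ (FreeGroup.lift (fun i => g' i * n i) w) :=
      QuotientGroup.eq.2 h5
    rw [lift_map, lift_map] at h6
    have h7 : (fun i => σ (g' i)) = g := funext hg'
    have h8 : (fun i => σ (g' i * n i)) = h := by
      funext i
      rw [map_mul, hg', hn', mul_inv_cancel_left]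
    rwa [h7, h8] at h6)
  obtain ⟨n, hn⟩ := pw_finite (w := w) (Vb w ((R ⧸ L1) ⧸ D) : Set ((R ⧸ L1) ⧸ D))
    (Set.toFinite _) le_rfl
  exact ⟨n, hn⟩

end Pool.Agent.H18.GWD
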