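import Pool.Agent.H18.GW.Targets2
import Pool.Agent.H18.GWD.VN
import Pool.Agent.H27.HG.NOE

/-!
# Board gwd, row FK: a normal subgroup of `p`-power index
-/

set_option autoImplicit false

open scoped commutatorElement

namespace Pool.Agent.H18.GWD

open Pool.Agent.H18.GW

theorem pf_FK (hFN : T_FN) (hRP : T_RP) : T_FK := by
  intro R _ hfg N hN hnil M hM hMN hMab p hp
  -- the subgroup of the `p`-th powers
  let B : Subgroup R :=
    { carrier := {x | ∃ y ∈ M, y ^ p = x}
      one_mem' := ⟨1, M.one_mem, one_pow p⟩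
      mul_mem' := by
        rintro _ _ ⟨y, hy, rfl⟩ ⟨z, hz, rfl⟩
        exact ⟨y * z, M.mul_mem hy hz, Commute.mul_pow (hMab y hy z hz) p⟩
      inv_mem' := by
        rintro _ ⟨y, hy, rfl⟩
        exact ⟨y⁻¹, M.inv_mem hy, inv_pow y p⟩ }
  have hBM : B ≤ M := by
    rintro _ ⟨y, hy, rfl⟩
    exact M.pow_mem hy p
  have hB : B.Normal := by
    constructor
    rintro _ ⟨y, hy, rfl⟩ g
    exact ⟨g * y * g⁻¹, hM.conj_mem y hy g, by simp⟩
  set π := QuotientGroup.mk' B with hπ
  have hs : Function.Surjective π := QuotientGroup.mk'_surjective B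
  have hN' : (N.map π).Normal := hN.map π hs
  have hnil' : Group.IsNilpotent (N.map π) := nil_quot π hnil
  have hM' : (M.map π).Normal := hM.map π hs
  have hle : M.map π ≤ N.map π := Subgroup.map_mono hMN
  have hfgN : Group.FG (N.map π) :=
    (Group.fg_iff_subgroup_fg _).2 (Pool.Agent.H27.HG.fg_map π (hfg N))
  have hfgM : Group.FG (M.map π) :=
    (Group.fg_iff_subgroup_fg _).2 (Pool.Agent.H27.HG.fg_map π (hfg M))
  have hnilM : Group.IsNilpotent (M.map π) := by
    obtain ⟨c, hc⟩ := (Subgroup.isNilpotent_iff_lowerCentralSeries _).1 hnil'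
    refine (Subgroup.isNilpotent_iff_lowerCentralSeries _).2 ⟨c, ?_⟩
    rw [eq_bot_iff, ← hc]
    exact lcs_mono hle c
  have hexpM : ∀ x ∈ M.map π, x ^ p = 1 := by
    rintro _ ⟨y, hy, rfl⟩
    rw [← map_pow]
    exact (QuotientGroup.eq_one_iff _).2 ⟨y, hy, rfl⟩
  have hfinM : Finite (M.map π) := hFN (M.map π) hfgM hnilM p hp.pos
    (fun x => Subtype.ext (hexpM x x.2))
  -- the group `E`
  let P : Subgroup (N.map π) := (M.map π).subgroupOf (N.map π)
  have hPn : P.Normal := hM'.subgroupOf _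
  have hPf : Finite P := Finite.of_equiv _ (Subgroup.subgroupOfEquivOfLe hle).symm.toEquiv
  have hPp : IsPGroup p P := by
    intro g
    refine ⟨1, ?_⟩
    apply Subtype.ext
    apply Subtype.ext
    rw [pow_one]
    exact hexpM _ g.2
  obtain ⟨k, hk⟩ := hRP (N.map π) hfgN hnil' p hp P hPn hPf hPp
  let K : Subgroup R := Subgroup.closure {y | ∃ x ∈ N, x ^ (p ^ k) = y} ⊔ B
  have hC : (Subgroup.closure {y : R | ∃ x ∈ N, x ^ (p ^ k) = y}).Normal := by
    constructor
    intro n hn g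
    induction hn using Subgroup.closure_induction with
    | mem a ha =>
      obtain ⟨x, hx, rfl⟩ := ha
      exact Subgroup.subset_closure ⟨g * x * g⁻¹, hN.conj_mem x hx g, by simp⟩
    | one => simp
    | mul a b _ _ ha hb =>
      have e : g * (a * b) * g⁻¹ = g * a * g⁻¹ * (g * b * g⁻¹) := by group
      rw [e]
      exact Subgroup.mul_mem _ ha hb
    | inv a _ ha =>
      have e : g * a⁻¹ * g⁻¹ = (g * a * g⁻¹)⁻¹ := by group
      rw [e]
      exact Subgroup.inv_mem _ ha
  have hKn : K.Normal := by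
    change (_ ⊔ _ : Subgroup R).Normal
    infer_instance
  have hKN : K ≤ N := by
    refine sup_le ?_ (hBM.trans hMN)
    rw [Subgroup.closure_le]
    rintro _ ⟨x, hx, rfl⟩
    exact N.pow_mem hx _
  refine ⟨K, hKn, hKN, ?_, ?_⟩
  · -- the index
    have h1 : (K.subgroupOf N).Normal := hKn.subgroupOf N
    have hNfg : Group.FG N := (Group.fg_iff_subgroup_fg N).2 (hfg N)
    have h2 : Group.FG (N ⧸ K.subgroupOf N) := inferInstance
    have h3 : Group.IsNilpotent (N ⧸ K.subgroupOf N) := inferInstance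
    have h4 : ∀ x : N ⧸ K.subgroupOf N, x ^ (p ^ k) = 1 := by
      intro x
      obtain ⟨y, rfl⟩ := QuotientGroup.mk'_surjective (K.subgroupOf N) x
      rw [← map_pow]
      refine (QuotientGroup.eq_one_iff _).2 ?_
      change ((y ^ (p ^ k) : N) : R) ∈ K
      refine Subgroup.mem_sup_left (Subgroup.subset_closure ⟨y, y.2, ?_⟩)
      simp
    have h5 : Finite (N ⧸ K.subgroupOf N) := hFN _ h2 h3 (p ^ k) (pow_pos hp.pos k) h4
    have h6 : IsPGroup p (N ⧸ K.subgroupOf N) := fun g => ⟨k, h4 g⟩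
    have : Fact p.Prime := ⟨hp⟩
    obtain ⟨j, hj⟩ := IsPGroup.iff_card.1 h6
    exact ⟨j, hj⟩
  · intro x hxK hxM
    have h1 : K ≤ ((Pw (p ^ k) (N.map π)).map (N.map π).subtype).comap π := by
      refine sup_le ?_ ?_
      · rw [Subgroup.closure_le]
        rintro _ ⟨x, hx, rfl⟩
        refine ⟨⟨π x, ⟨x, hx, rfl⟩⟩ ^ (p ^ k), Subgroup.subset_closure ⟨_, rfl⟩, ?_⟩
        simp
      · intro y hy
        have h2 : π y = 1 := (QuotientGroup.eq_one_iff _).2 hy
        rw [Subgroup.mem_comap, h2]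
        exact Subgroup.one_mem _
    obtain ⟨e, he, hex⟩ := h1 hxK
    have h3 : e ∈ P := by
      change (e : R ⧸ B) ∈ M.map π
      have h4 : (e : R ⧸ B) = π x := hex
      rw [h4]
      exact ⟨x, hxM, rfl⟩
    have h5 : e ∈ Pw (p ^ k) (N.map π) ⊓ P := ⟨he, h3⟩
    rw [hk, Subgroup.mem_bot] at h5
    have h6 : π x = 1 := by
      rw [← hex, h5, map_one]
    exact (QuotientGroup.eq_one_iff x).1 h6

end Pool.Agent.H18.GWD
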