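import Pool.Agent.H18.GW.Ext
import Pool.Agent.H11.KT.Main

/-!
# Board gwd, row FO: forcing words are good
-/

set_option autoImplicit false

open scoped commutatorElement

namespace Pool.Agent.H18.GWD

open Pool.Agent.H18.GW Pool.Agent.H11.KT

/-- every element of the derived group lies in a finitely generated perfect subgroup -/
theorem FO_aux {H : Type} [Group H]
    (h : ∀ x y : H, ∃ A : Subgroup H, A.FG ∧ ⁅A, A⁆ = A ∧ ⁅x, y⁆ ∈ A) :
    ∀ g ∈ commutator H, ∃ A : Subgroup H, A.FG ∧ ⁅A, A⁆ = A ∧ g ∈ A := by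
  intro g hg
  rw [commutator_eq_closure] at hg
  induction hg using Subgroup.closure_induction with
  | mem x hx =>
    obtain ⟨a, b, rfl⟩ := hx
    exact h a b
  | one => exact ⟨⊥, Subgroup.FG.bot, by simp, Subgroup.one_mem _⟩
  | mul x y _ _ hx hy =>
    obtain ⟨A, h1, h2, h3⟩ := hx
    obtain ⟨B, h4, h5, h6⟩ := hy
    refine ⟨A ⊔ B, h1.sup h4, ?_, Subgroup.mul_mem_sup h3 h6⟩
    refine le_antisymm (Subgroup.commutator_le_self _) (sup_le ?_ ?_)
    · calc A = ⁅A, A⁆ := h2.symm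
        _ ≤ _ := Subgroup.commutator_mono le_sup_left le_sup_left
    · calc B = ⁅B, B⁆ := h5.symm
        _ ≤ _ := Subgroup.commutator_mono le_sup_right le_sup_right
  | inv x _ hx =>
    obtain ⟨A, h1, h2, h3⟩ := hx
    exact ⟨A, h1, h2, A.inv_mem h3⟩

theorem pf_FO : T_FO := by
  intro r w hw
  refine ⟨1, 1, one_pos, fun H _ _ hlaw => ⟨⊤, inferInstance, inferInstance,
    fun x => Subgroup.mem_top _, fun g hg => ?_⟩⟩
  rw [Subgroup.top_lowerCentralSeries_one] at hg
  exact FO_aux (PF_of_Forcing hw H hlaw) g hg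

end Pool.Agent.H18.GWD
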