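import Pool.Agent.H18.GW.Ext

/-!
# Board gwd, row LM: products, inverses and commutators of polynomial maps
-/

set_option autoImplicit false

open scoped commutatorElement

namespace Pool.Agent.H18.GWD

open Pool.Agent.H18.GW

variable {Γ R : Type} [Group Γ] [Group R] {F : ℕ → Subgroup R}

theorem PP_val {m i : ℕ} {f : Γ → R} (h : PP F m i f) (x : Γ) : f x ∈ F i := by
  cases m with
  | zero => exact h x
  | succ m => exact h.1 x

theorem PP_a (hF : Filt F) : ∀ (m i : ℕ) (f : Γ → R), PP F m (i + 1) f → PP F m i f := by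
  intro m
  induction m with
  | zero => exact fun i f h x => hF.anti i (h x)
  | succ m ih => exact fun i f h => ⟨fun x => hF.anti i (h.1 x), fun k => ih (i + 1) _ (h.2 k)⟩

theorem PP_aa (hF : Filt F) (m i j : ℕ) (f : Γ → R) (h : PP F m (i + j) f) : PP F m i f := by
  induction j with
  | zero => exact h
  | succ j ih => exact ih (PP_a hF m (i + j) f h)

theorem PP_b : ∀ (m i : ℕ) (f : Γ → R), PP F (m + 1) i f → PP F m i f := by
  intro m
  induction m with
  | zero => exact fun i f h => h.1
  | succ m ih => exact fun i f h => ⟨h.1, fun k => ih (i + 1) _ (h.2 k)⟩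

theorem pf_LM : T_LM := by
  intro Γ R _ _ F hF m
  suffices H : (∀ (i : ℕ) (f g : Γ → R), PP F m i f → PP F m i g →
      PP F m i (fun x => f x * g x)) ∧
      (∀ (i : ℕ) (f : Γ → R), PP F m i f → PP F m i (fun x => (f x)⁻¹)) ∧
      (∀ (i j : ℕ) (f g : Γ → R), PP F m i f → PP F m j g →
        PP F m (i + j) (fun x => ⁅f x, g x⁆)) from
    ⟨H.1, H.2.1, H.2.2, PP_a hF m⟩
  induction m with
  | zero =>
    refine ⟨fun i f g hf hg x => (F i).mul_mem (hf x) (hg x),
      fun i f hf x => (F i).inv_mem (hf x), fun i j f g hf hg x => ?_⟩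
    exact hF.comm i j (Subgroup.commutator_mem_commutator (hf x) (hg x))
  | succ m ih =>
    obtain ⟨hmul, hinv, hcom⟩ := ih
    -- conjugation
    have hconj : ∀ (i j : ℕ) (f u : Γ → R), PP F m i f → PP F m j u →
        PP F m j (fun x => f x * u x * (f x)⁻¹) := by
      intro i j f u hf hu
      have h1 := hcom i j f u hf hu
      rw [add_comm] at h1
      have h2 := hmul j _ _ (PP_aa hF m j i _ h1) hu
      have h3 : (fun x => f x * u x * (f x)⁻¹) = fun x => ⁅f x, u x⁆ * u x := by
        funext x
        simp only [commutatorElement_def]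
        group
      rw [h3]
      exact h2
    refine ⟨fun i f g hf hg => ⟨fun x => (F i).mul_mem (hf.1 x) (hg.1 x), fun k => ?_⟩,
      fun i f hf => ⟨fun x => (F i).inv_mem (hf.1 x), fun k => ?_⟩,
      fun i j f g hf hg => ⟨fun x => hF.comm i j
        (Subgroup.commutator_mem_commutator (hf.1 x) (hg.1 x)), fun k => ?_⟩⟩
    · have h1 := hconj i (i + 1) _ _ (hinv i _ (PP_b m i g hg)) (hf.2 k)
      have h2 := hmul (i + 1) _ _ h1 (hg.2 k)
      have h3 : Dl k (fun x => f x * g x) =
          fun x => (g x)⁻¹ * Dl k f x * ((g x)⁻¹)⁻¹ * Dl k g x := by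
        funext x
        simp only [Dl]
        group
      rw [h3]
      exact h2
    · have h1 := hconj i (i + 1) _ _ (PP_b m i f hf) (hinv (i + 1) _ (hf.2 k))
      have h3 : Dl k (fun x => (f x)⁻¹) = fun x => f x * (Dl k f x)⁻¹ * (f x)⁻¹ := by
        funext x
        simp only [Dl]
        group
      rw [h3]
      exact h1
    · -- the commutator
      have hf' := PP_b m i f hf
      have hg' := PP_b m j g hg
      have ha := hf.2 k
      have hb := hg.2 k
      have hgb : PP F m j (fun x => g x * Dl k g x) := hmul j _ _ hg' (PP_a hF m j _ hb)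
      have h1 : PP F m (i + j + 1) (fun x => ⁅Dl k f x, g x * Dl k g x⁆) := by
        have := hcom (i + 1) j _ _ ha hgb
        have e : i + 1 + j = i + j + 1 := by omega
        rwa [e] at this
      have h2 : PP F m (i + j + 1) (fun x => ⁅f x, Dl k g x⁆) := hcom i (j + 1) _ _ hf' hb
      have h3 := hconj i (i + j + 1) _ _ hf' h1
      have h4 := hconj (i + j) (i + j + 1) _ _ (hinv (i + j) _ (hcom i j _ _ hf' hg')) h3
      have h5 := hconj j (i + j + 1) _ _ hg' h2
      have h6 := hmul (i + j + 1) _ _ h4 h5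
      have h7 : Dl k (fun x => ⁅f x, g x⁆) = fun x =>
          (⁅f x, g x⁆)⁻¹ * (f x * ⁅Dl k f x, g x * Dl k g x⁆ * (f x)⁻¹) * ((⁅f x, g x⁆)⁻¹)⁻¹ *
            (g x * ⁅f x, Dl k g x⁆ * (g x)⁻¹) := by
        funext x
        simp only [Dl, commutatorElement_def]
        group
      rw [h7]
      exact h6

end Pool.Agent.H18.GWD
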