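import Pool.Agent.H18.GW.Ext

/-!
# Board gwd, row LW: words in polynomial maps
-/

set_option autoImplicit false

open scoped commutatorElement

namespace Pool.Agent.H18.GWD

open Pool.Agent.H18.GW

theorem pf_LW (hLM : T_LM) : T_LW := by
  intro Γ R _ _ F hF m r w φ hφ
  obtain ⟨hmul, hinv, _, _⟩ := hLM Γ R F hF m
  induction w using FreeGroup.induction_on with
  | C1 => exact PP_one F m 0
  | of i =>
    have h1 : (fun x => FreeGroup.lift (fun i => φ i x) (FreeGroup.of i)) = φ i := by
      funext x
      simp
    exact h1 ▸ hφ i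
  | inv_of i h =>
    have h1 : (fun x => FreeGroup.lift (fun i => φ i x) (FreeGroup.of i)⁻¹) =
        fun x => (φ i x)⁻¹ := by
      funext x
      simp
    exact h1 ▸ hinv 0 _ (hφ i)
  | mul a b ha hb =>
    have h1 : (fun x => FreeGroup.lift (fun i => φ i x) (a * b)) =
        fun x => FreeGroup.lift (fun i => φ i x) a * FreeGroup.lift (fun i => φ i x) b := by
      funext x
      rw [map_mul]
    exact h1 ▸ hmul 0 _ _ ha hb

end Pool.Agent.H18.GWD
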