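import Pool.Agent.H18.GW.Ext
import Pool.Agent.H27.HG.NOE

/-!
# Board gwd, row NV: subgroups of finitely generated virtually nilpotent groups
-/

set_option autoImplicit false

open scoped commutatorElement

namespace Pool.Agent.H18.GWD

open Pool.Agent.H18.GW

/-- a subgroup with a finitely generated subgroup of finite index is finitely generated -/
theorem fg_of_relIndex {R : Type} [Group R] (M K : Subgroup R) (hMK : M ≤ K) (hM : M.FG)
    (hi : M.relIndex K ≠ 0) : K.FG := by
  classical
  have h0 : (M.subgroupOf K).FiniteIndex := ⟨hi⟩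
  have hfin : Finite (K ⧸ M.subgroupOf K) := inferInstance
  obtain ⟨S, hS⟩ := hM
  have := Fintype.ofFinite (K ⧸ M.subgroupOf K)
  let T : Finset R := Finset.univ.image (fun q : K ⧸ M.subgroupOf K => ((q.out : K) : R))
  refine ⟨S ∪ T, le_antisymm ?_ ?_⟩
  · rw [Subgroup.closure_le]
    intro x hx
    rw [Finset.coe_union] at hx
    rcases hx with hx | hx
    · exact hMK (hS ▸ Subgroup.subset_closure hx)
    · simp only [T, Finset.coe_image] at hx
      obtain ⟨q, _, rfl⟩ := hx
      exact (q.out : K).2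
  · intro x hx
    have h1 : ((QuotientGroup.mk (⟨x, hx⟩ : K) : K ⧸ M.subgroupOf K).out)⁻¹ * ⟨x, hx⟩ ∈
        M.subgroupOf K := QuotientGroup.eq.1 (QuotientGroup.out_eq' _)
    have h2 : M ≤ Subgroup.closure ((S ∪ T : Finset R) : Set R) := by
      rw [← hS]
      exact Subgroup.closure_mono (by simp)
    have h3 : (((QuotientGroup.mk (⟨x, hx⟩ : K) : K ⧸ M.subgroupOf K).out : K) : R) ∈
        Subgroup.closure ((S ∪ T : Finset R) : Set R) :=
      Subgroup.subset_closure (by simp [T])
    have h4 := Subgroup.mul_mem _ h3 (h2 h1)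
    simpa using h4

theorem pf_NV : T_NV := by
  intro R _ hfg N hNi hnil K
  have hN0 : N.index ≠ 0 := hNi.index_ne_zero
  have hNfg : Group.FG N := Subgroup.fg_of_index_ne_zero N
  obtain ⟨c, hc⟩ := Subgroup.nilpotent_iff_lowerCentralSeries.1 hnil
  have h1 := Pool.Agent.H27.HG.noe_aux c N hc
  have h2 := Pool.Agent.H27.HG.fg_map N.subtype (h1 (K.subgroupOf N))
  rw [Subgroup.subgroupOf_map_subtype K N] at h2
  refine fg_of_relIndex (K ⊓ N) K inf_le_left h2 ?_
  rw [Subgroup.inf_relIndex_left]
  have h3 : N.relIndex ⊤ ≠ 0 := by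
    rwa [Subgroup.relIndex_top_right]
  exact fun h4 => h3 (Subgroup.relIndex_eq_zero_of_le_right le_top h4)

end Pool.Agent.H18.GWD
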