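import Pool.Agent.H18.GW.Ext

/-!
# Board gwd, row NX: the exponent of a nilpotent group
-/

set_option autoImplicit false

open scoped commutatorElement

namespace Pool.Agent.H18.GWD

open Pool.Agent.H18.GW

/-- powers of an element which is central modulo `Z` -/
theorem NX_pow {E : Type} [Group E] (Z : Subgroup E) [Z.Normal] (x y : E)
    (hc : ∀ g : E, ⁅⁅x, y⁆, g⁆ ∈ Z) (q : ℕ) : (⁅x, y⁆ ^ q)⁻¹ * ⁅x ^ q, y⁆ ∈ Z := by
  have key : ∀ q : ℕ, QuotientGroup.mk' Z ⁅x ^ q, y⁆ = QuotientGroup.mk' Z (⁅x, y⁆ ^ q) := by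
    intro q
    induction q with
    | zero => simp
    | succ q ih =>
      have h1 : ⁅x ^ (q + 1), y⁆ = x ^ q * ⁅x, y⁆ * (x ^ q)⁻¹ * ⁅x ^ q, y⁆ := by
        rw [pow_succ]
        simp only [commutatorElement_def]
        group
      have h2 : QuotientGroup.mk' Z (x ^ q * ⁅x, y⁆ * (x ^ q)⁻¹) =
          QuotientGroup.mk' Z ⁅x, y⁆ := by
        refine (QuotientGroup.eq.2 ?_)
        have h3 := hc (x ^ q)
        rw [commutatorElement_def] at h3
        have h4 : Z.Normal := inferInstance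
        have h5 := h4.conj_mem _ h3 (⁅x, y⁆⁻¹)
        have e : (⁅x, y⁆)⁻¹ * (⁅x, y⁆ * x ^ q * ⁅x, y⁆⁻¹ * (x ^ q)⁻¹) * (⁅x, y⁆⁻¹)⁻¹ =
            (x ^ q * ⁅x, y⁆ * (x ^ q)⁻¹)⁻¹ * ⁅x, y⁆ := by
          group
        rwa [e] at h5
      rw [h1, map_mul, h2, ih, ← map_mul, pow_succ']
  exact QuotientGroup.eq.1 (key q).symm

theorem pf_NX : T_NX := by
  intro E _ hE q hq
  have key : ∀ i : ℕ, ∀ x ∈ Subgroup.upperCentralSeries E (i + 1),
      x ^ q ∈ Subgroup.upperCentralSeries E i := by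
    intro i
    induction i with
    | zero =>
      intro x hx
      rw [Nat.zero_add, Subgroup.upperCentralSeries_one] at hx
      rw [Subgroup.upperCentralSeries_zero, Subgroup.mem_bot]
      exact hq x hx
    | succ i ih =>
      intro x hx
      rw [Subgroup.mem_upperCentralSeries_succ_iff] at hx ⊢
      intro y
      have h1 : ⁅x, y⁆ ∈ Subgroup.upperCentralSeries E (i + 1) := hx y
      have h2 : ∀ g : E, ⁅⁅x, y⁆, g⁆ ∈ Subgroup.upperCentralSeries E i := by
        intro g
        rw [Subgroup.mem_upperCentralSeries_succ_iff] at h1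
        exact h1 g
      have h3 := NX_pow (Subgroup.upperCentralSeries E i) x y h2 q
      have h4 := ih _ h1
      have h5 := Subgroup.mul_mem _ h4 h3
      rw [mul_inv_cancel_left] at h5
      exact h5
  obtain ⟨n, hn⟩ := hE.nilpotent
  refine ⟨n, fun x => ?_⟩
  have h6 : ∀ j : ℕ, j ≤ n → x ^ (q ^ j) ∈ Subgroup.upperCentralSeries E (n - j) := by
    intro j
    induction j with
    | zero =>
      intro _
      rw [Nat.sub_zero, hn]
      exact Subgroup.mem_top _
    | succ j ih =>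
      intro hj
      have h7 := ih (by omega)
      have e : n - j = (n - (j + 1)) + 1 := by omega
      rw [e] at h7
      have h8 := key _ _ h7
      rwa [← pow_mul, ← pow_succ] at h8
  have h9 := h6 n le_rfl
  rw [Nat.sub_self, Subgroup.upperCentralSeries_zero, Subgroup.mem_bot] at h9
  exact h9

end Pool.Agent.H18.GWD
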