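import Pool.Agent.H18.GW.Ext

/-!
# Board gwd, row PM: the values of a polynomial map to a noetherian abelian group
-/

set_option autoImplicit false

open scoped commutatorElement

namespace Pool.Agent.H18.GWD

open Pool.Agent.H18.GW

theorem pf_PM (hSB : T_SB) : T_PM := by
  intro Γ R _ _ W hW hfg n
  induction n with
  | zero =>
    intro f _ _ hP
    refine ⟨0, fun a ha => ?_⟩
    have h1 : Subgroup.closure (Set.range f) ≤ ⊥ := by
      rw [Subgroup.closure_le]
      rintro _ ⟨x, rfl⟩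
      exact hP x
    rw [Subgroup.mem_bot.1 (h1 ha)]
    exact BP.one _ _
  | succ n ih =>
    intro f hf h1 hP
    -- the maps `fk`
    have hfk : ∀ k : Γ, ∃ t : ℕ, ∀ a ∈ Subgroup.closure (Set.range fun x : Γ =>
        (f x)⁻¹ * f (x * k) * (f k)⁻¹), BP (Set.range f) t a := by
      intro k
      have e1 : ∀ x : Γ, (f x)⁻¹ * f (x * k) * (f k)⁻¹ ∈ W := fun x =>
        W.mul_mem (W.mul_mem (W.inv_mem (hf x)) (hf _)) (W.inv_mem (hf k))
      have e2 : (fun x : Γ => (f x)⁻¹ * f (x * k) * (f k)⁻¹) 1 = 1 := by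
        simp [h1]
      have e3 : Pol n (fun x : Γ => (f x)⁻¹ * f (x * k) * (f k)⁻¹) := by
        cases n with
        | zero =>
          intro x
          have h2 := hP k x
          have h3 := hP k 1
          simp only [Dl, one_mul, h1, inv_one] at h2 h3
          simp only [h2, h3, inv_one, mul_one]
        | succ n =>
          intro h
          have h2 := hP k h
          have h3 : Dl h (fun x : Γ => (f x)⁻¹ * f (x * k) * (f k)⁻¹) = Dl h (Dl k f) := by
            funext x
            simp only [Dl]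
            have h4 := hW _ (W.mul_mem (W.inv_mem (W.mul_mem (W.inv_mem (hf x)) (hf (x * k))))
              (W.mul_mem (W.inv_mem (hf (x * h))) (hf (x * h * k)))) _ (W.inv_mem (hf k))
            calc ((f x)⁻¹ * f (x * k) * (f k)⁻¹)⁻¹ * ((f (x * h))⁻¹ * f (x * h * k) * (f k)⁻¹)
                = f k * (((f x)⁻¹ * f (x * k))⁻¹ * ((f (x * h))⁻¹ * f (x * h * k)) *
                    (f k)⁻¹) := by group
              _ = f k * ((f k)⁻¹ * (((f x)⁻¹ * f (x * k))⁻¹ *
                    ((f (x * h))⁻¹ * f (x * h * k)))) := by rw [h4]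
              _ = _ := by group
          rw [h3]
          exact h2
      obtain ⟨t, ht⟩ := ih _ e1 e2 e3
      refine ⟨t * 3, fun a ha => (ht a ha).trans ?_⟩
      rintro _ ⟨x, rfl⟩
      exact (((BP.of_mem (Set.mem_range_self x)).inv).mul
        (BP.of_mem (Set.mem_range_self (x * k)))).mul (BP.of_mem (Set.mem_range_self k)).inv
    obtain ⟨t, ht⟩ := hSB R W hW hfg (Set.range f) Γ (fun k => Subgroup.closure
      (Set.range fun x : Γ => (f x)⁻¹ * f (x * k) * (f k)⁻¹)) (fun k => by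
        rw [Subgroup.closure_le]
        rintro _ ⟨x, rfl⟩
        exact W.mul_mem (W.mul_mem (W.inv_mem (hf x)) (hf _)) (W.inv_mem (hf k))) hfk
    set T : Subgroup R := ⨆ k, Subgroup.closure
      (Set.range fun x : Γ => (f x)⁻¹ * f (x * k) * (f k)⁻¹) with hT
    have hTW : T ≤ W := iSup_le fun k => by
      rw [Subgroup.closure_le]
      rintro _ ⟨x, rfl⟩
      exact W.mul_mem (W.mul_mem (W.inv_mem (hf x)) (hf _)) (W.inv_mem (hf k))
    have hTm : ∀ x k : Γ, (f x)⁻¹ * f (x * k) * (f k)⁻¹ ∈ T := fun x k =>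
      (le_iSup (fun k => Subgroup.closure
        (Set.range fun x : Γ => (f x)⁻¹ * f (x * k) * (f k)⁻¹)) k)
        (Subgroup.subset_closure ⟨x, rfl⟩)
    have key : ∀ a ∈ Subgroup.closure (Set.range f), ∃ x : Γ, ∃ b ∈ T, a = f x * b := by
      intro a ha
      induction ha using Subgroup.closure_induction with
      | mem y hy =>
        obtain ⟨x, rfl⟩ := hy
        exact ⟨x, 1, T.one_mem, (mul_one _).symm⟩
      | one => exact ⟨1, 1, T.one_mem, by rw [h1, mul_one]⟩
      | mul a b _ _ ha hb =>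
        obtain ⟨x, s, hs, rfl⟩ := ha
        obtain ⟨y, s', hs', rfl⟩ := hb
        have h2 := hTm x y
        refine ⟨x * y, ((f x)⁻¹ * f (x * y) * (f y)⁻¹)⁻¹ * (s * s'),
          T.mul_mem (T.inv_mem h2) (T.mul_mem hs hs'), ?_⟩
        have c1 : s * f y = f y * s := hW s (hTW hs) _ (hf y)
        have c2 : (f x)⁻¹ * f (x * y) * (f y)⁻¹ * (f x * f y) = f (x * y) := by
          have c3 := hW _ (W.mul_mem (W.mul_mem (W.inv_mem (hf x)) (hf (x * y)))
            (W.inv_mem (hf y))) _ (W.mul_mem (hf x) (hf y))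
          have c4 := hW _ (hf (x * y)) _ (W.inv_mem (hf y))
          have c5 := hW _ (hf y) _ (W.mul_mem (W.inv_mem (hf y)) (hf (x * y)))
          calc (f x)⁻¹ * f (x * y) * (f y)⁻¹ * (f x * f y)
              = f x * f y * ((f x)⁻¹ * f (x * y) * (f y)⁻¹) := c3
            _ = f x * f y * ((f x)⁻¹ * (f (x * y) * (f y)⁻¹)) := by group
            _ = f x * f y * ((f x)⁻¹ * ((f y)⁻¹ * f (x * y))) := by rw [c4]
            _ = f x * (f y * (f x)⁻¹) * ((f y)⁻¹ * f (x * y)) := by group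
            _ = f x * ((f x)⁻¹ * f y) * ((f y)⁻¹ * f (x * y)) := by
              rw [hW _ (hf y) _ (W.inv_mem (hf x))]
            _ = f (x * y) := by group
        calc f x * s * (f y * s') = f x * (s * f y) * s' := by group
          _ = f x * (f y * s) * s' := by rw [c1]
          _ = f x * f y * (s * s') := by group
          _ = f (x * y) * (((f x)⁻¹ * f (x * y) * (f y)⁻¹)⁻¹ * (s * s')) := by
            rw [← mul_assoc (f (x * y))]
            congr 1
            rw [eq_mul_inv_iff_mul_eq]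
            exact (hW _ (W.mul_mem (hf x) (hf y)) _ (W.mul_mem (W.mul_mem (W.inv_mem (hf x))
              (hf (x * y))) (W.inv_mem (hf y)))).trans c2
      | inv a _ ha =>
        obtain ⟨x, s, hs, rfl⟩ := ha
        have h2 := hTm x x⁻¹
        rw [mul_inv_cancel, h1, mul_one] at h2
        -- `h2 : (f x)⁻¹ * (f x⁻¹)⁻¹ ∈ T`
        refine ⟨x⁻¹, (f x)⁻¹ * (f x⁻¹)⁻¹ * s⁻¹, T.mul_mem h2 (T.inv_mem hs), ?_⟩
        have c1 := hW _ (W.inv_mem (hTW hs)) _ (W.inv_mem (hf x))
        have c2 := hW _ (W.inv_mem (hf x)) _ (W.inv_mem (hf x⁻¹))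
        calc (f x * s)⁻¹ = s⁻¹ * (f x)⁻¹ := by group
          _ = (f x)⁻¹ * s⁻¹ := c1
          _ = f x⁻¹ * ((f x⁻¹)⁻¹ * (f x)⁻¹ * s⁻¹) := by group
          _ = f x⁻¹ * ((f x)⁻¹ * (f x⁻¹)⁻¹ * s⁻¹) := by rw [← c2]
    refine ⟨1 + t, fun a ha => ?_⟩
    obtain ⟨x, b, hb, rfl⟩ := key a ha
    exact (BP.of_mem (Set.mem_range_self x)).mul (ht b hb)

end Pool.Agent.H18.GWD
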