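import Pool.Agent.H18.GW.Ext

/-!
# Board gwd, row PO: the map `h ↦ w(g)⁻¹ w(g h)` is polynomial
-/

set_option autoImplicit false

open scoped commutatorElement

namespace Pool.Agent.H18.GWD

open Pool.Agent.H18.GW

theorem PP_const {Γ R : Type} [Group Γ] [Group R] (F : ℕ → Subgroup R) (i : ℕ) (a : R)
    (ha : a ∈ F i) (m : ℕ) : PP F m i (fun _ : Γ => a) := by
  cases m with
  | zero => exact fun _ => ha
  | succ m =>
    refine ⟨fun _ => ha, fun h => ?_⟩
    have h1 : Dl h (fun _ : Γ => a) = fun _ => 1 := by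
      funext x
      simp [Dl]
    rw [h1]
    exact PP_one F m _

theorem pf_PO (hLW : T_LW) (hFI : T_FI) : T_PO := by
  intro R _ N hN c hc r w g
  have hF := hFI R N hN
  have h1 : ∀ i : Fin r, PP (fil N) (c + 1) 0 (fun h : Fin r → N => g i * (h i : R)) := by
    intro i
    refine ⟨fun x => ?_, fun k => ?_⟩
    · rw [hF.top]
      exact Subgroup.mem_top _
    · have h2 : Dl k (fun h : Fin r → N => g i * (h i : R)) = fun _ => ((k i : N) : R) := by
        funext x
        simp only [Dl, Pi.mul_apply, Subgroup.coe_mul]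
        group
      rw [h2]
      exact PP_const _ _ _ (k i).2 c
  have h2 := hLW (Fin r → N) R (fil N) hF (c + 1) r w (fun i h => g i * (h i : R)) h1
  have h3 := Pol_of_PP (fil N) (c + 1) 0 _ h2 (by rw [Nat.zero_add]; exact hc)
  intro k
  rw [Dl_mul_const]
  exact h3 k

end Pool.Agent.H18.GWD
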