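import Pool.Agent.H18.GW.Ext

/-!
# Board gwd, row QQ: the group of sequences modulo the bounded sequences
-/

set_option autoImplicit false

open scoped commutatorElement

namespace Pool.Agent.H18.GWD

open Pool.Agent.H18.GW Pool.Agent.H11.KT Pool.Agent.H11.EL

theorem pf_QQ (hPP : P_PP) (hNF : T_NF) : T_QQ := by
  intro r w G _
  refine ⟨(∀ K, G K) ⧸ Vb w (∀ K, G K), inferInstance, QuotientGroup.mk' _,
    QuotientGroup.mk'_surjective _, Law_quot w _, fun g => ?_⟩
  rw [QuotientGroup.mk'_apply, QuotientGroup.eq_one_iff]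
  refine ⟨fun h => hPP r w G g h, ?_⟩
  rintro ⟨m, hm⟩
  exact pw_mem (PW_pi hNF w m G g hm)

end Pool.Agent.H18.GWD
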