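import Pool.Agent.H18.GW.Ext

/-!
# Board gwd, row SB: the sum of a family of bounded subgroups
-/

set_option autoImplicit false

open scoped commutatorElement

namespace Pool.Agent.H18.GWD

open Pool.Agent.H18.GW

/-- the join of two subgroups of a commutative subgroup -/
theorem mem_sup_comm {R : Type} [Group R] (W X Y : Subgroup R)
    (hW : ∀ x ∈ W, ∀ y ∈ W, x * y = y * x) (hX : X ≤ W) (hY : Y ≤ W) {g : R}
    (hg : g ∈ X ⊔ Y) : ∃ x ∈ X, ∃ y ∈ Y, g = x * y := by
  rw [Subgroup.sup_eq_closure] at hg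
  induction hg using Subgroup.closure_induction with
  | mem x hx =>
    rcases hx with hx | hx
    · exact ⟨x, hx, 1, Y.one_mem, (mul_one x).symm⟩
    · exact ⟨1, X.one_mem, x, hx, (one_mul x).symm⟩
  | one => exact ⟨1, X.one_mem, 1, Y.one_mem, (mul_one 1).symm⟩
  | mul a b _ _ ha hb =>
    obtain ⟨x, hx, y, hy, rfl⟩ := ha
    obtain ⟨x', hx', y', hy', rfl⟩ := hb
    refine ⟨x * x', X.mul_mem hx hx', y * y', Y.mul_mem hy hy', ?_⟩
    have h1 := hW y (hY hy) x' (hX hx')
    calc x * y * (x' * y') = x * (y * x') * y' := by group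
      _ = x * (x' * y) * y' := by rw [h1]
      _ = x * x' * (y * y') := by group
  | inv a _ ha =>
    obtain ⟨x, hx, y, hy, rfl⟩ := ha
    refine ⟨x⁻¹, X.inv_mem hx, y⁻¹, Y.inv_mem hy, ?_⟩
    rw [mul_inv_rev]
    exact hW _ (W.inv_mem (hY hy)) _ (W.inv_mem (hX hx))

theorem pf_SB : T_SB := by
  classical
  intro R _ W hW hfg S I A hA ht
  choose t ht using ht
  -- finite joins
  have h1 : ∀ J : Finset I, ∀ a ∈ J.sup A, BP S (∑ i ∈ J, t i) a := by
    intro J
    induction J using Finset.induction_on with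
    | empty =>
      intro a ha
      rw [Finset.sup_empty, Subgroup.mem_bot] at ha
      rw [ha]
      exact BP.one S _
    | insert i J hi ih =>
      intro a ha
      rw [Finset.sup_insert] at ha
      obtain ⟨x, hx, y, hy, rfl⟩ := mem_sup_comm W (A i) (J.sup A) hW (hA i)
        (Finset.sup_le fun j _ => hA j) ha
      rw [Finset.sum_insert hi]
      exact (ht i x hx).mul (ih y hy)
  -- every element of the join lies in a finite join
  have h2 : ∀ a ∈ ⨆ i, A i, ∃ J : Finset I, a ∈ J.sup A := by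
    intro a ha
    have h3 : ⨆ i, A i = ⨆ J : Finset I, J.sup A := by
      refine le_antisymm (iSup_le fun i => ?_) (iSup_le fun J => Finset.sup_le fun i _ =>
        le_iSup A i)
      have h4 : A i ≤ ({i} : Finset I).sup A := by
        rw [Finset.sup_singleton]
      exact h4.trans (le_iSup (fun J : Finset I => J.sup A) {i})
    rw [h3] at ha
    have h5 : Directed (· ≤ ·) (fun J : Finset I => J.sup A) := by
      intro J J'
      exact ⟨J ∪ J', Finset.sup_mono Finset.subset_union_left,
        Finset.sup_mono Finset.subset_union_right⟩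
    rw [Subgroup.mem_iSup_of_directed h5] at ha
    exact ha
  obtain ⟨T, hT⟩ := hfg (⨆ i, A i) (iSup_le hA)
  have h6 : ∃ J : Finset I, ∀ a ∈ T, a ∈ J.sup A := by
    have h7 : ∀ a : R, ∃ J : Finset I, a ∈ T → a ∈ J.sup A := by
      intro a
      by_cases ha : a ∈ T
      · obtain ⟨J, hJ⟩ := h2 a (hT ▸ Subgroup.subset_closure ha)
        exact ⟨J, fun _ => hJ⟩
      · exact ⟨∅, fun h => absurd h ha⟩
    choose J hJ using h7
    refine ⟨T.biUnion J, fun a ha => ?_⟩
    exact (Finset.sup_mono (Finset.subset_biUnion_of_mem J ha) : (J a).sup A ≤ _) (hJ a ha)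
  obtain ⟨J, hJ⟩ := h6
  refine ⟨∑ i ∈ J, t i, fun a ha => h1 J a ?_⟩
  rw [← hT] at ha
  exact (Subgroup.closure_le _).2 (fun x hx => hJ x hx) ha

end Pool.Agent.H18.GWD
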