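import Pool.Agent.H18.GW.Ext

/-!
# Board gwd, row SW: Schur, Zassenhaus
-/

set_option autoImplicit false

open scoped commutatorElement

namespace Pool.Agent.H18.GWD

open Pool.Agent.H18.GW

theorem pf_SW : T_SW := by
  intro G _ _ P hP hco r w hw
  obtain ⟨C, hC⟩ := Subgroup.exists_right_complement'_of_coprime hco
  have h1 : Vb w G ≤ C := by
    unfold Vb
    rw [Subgroup.closure_le]
    rintro _ ⟨f, rfl⟩
    have h2 : ∀ i, ∃ c : C, (c : G)⁻¹ * f i ∈ P := by
      intro i
      have h3 : f i ∈ (P ⊔ C : Subgroup G) := by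
        rw [hC.sup_eq_top]
        exact Subgroup.mem_top _
      obtain ⟨p, hp, c, hc, e⟩ := Subgroup.mem_sup_of_normal_left.1 h3
      refine ⟨⟨c, hc⟩, ?_⟩
      have h4 := hP.conj_mem p hp c⁻¹
      rw [← e]
      rw [inv_inv] at h4
      change c⁻¹ * (p * c) ∈ P
      rw [← mul_assoc]
      exact h4
    choose c hc using h2
    have h5 := hw (fun i => (c i : G)) f hc
    change FreeGroup.lift f w ∈ C
    rw [← h5]
    have h6 := lift_map w C.subtype c
    change C.subtype _ = FreeGroup.lift (fun i => (c i : G)) w at h6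
    rw [← h6]
    exact (FreeGroup.lift c w).2
  rw [eq_bot_iff]
  intro x hx
  have h7 := hC.disjoint.le_bot (x := x) ⟨hx.2, h1 hx.1⟩
  exact h7

end Pool.Agent.H18.GWD
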