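import Pool.Agent.H18.GW.Ext

/-!
# Board gwd, row UA: groups of automorphisms with `(x - 1) ^ 2 = 0`
-/

set_option autoImplicit false

open scoped commutatorElement

namespace Pool.Agent.H18.GWD

open Pool.Agent.H18.GW

section

variable {A V : Type} [Group A] [AddCommGroup V] [DistribMulAction A V]

/-- the map `v ↦ x v - v` -/
def uu (x : A) : V →+ V := DistribSMul.toAddMonoidHom V x - AddMonoidHom.id V

theorem uu_apply (x : A) (v : V) : uu x v = x • v - v := rfl

theorem uu_mul (x y : A) (v : V) : uu (x * y) v = uu x v + uu y v + uu x (uu y v) := by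
  simp only [uu_apply, mul_smul, smul_sub]
  abel

theorem uu_one (v : V) : uu (1 : A) v = 0 := by
  rw [uu_apply, one_smul, sub_self]

variable (h : ∀ (x : A) (v : V), uu x (uu x v) = 0)

include h

theorem uu_E1 (x y : A) (v : V) : uu x (uu y v) + uu y (uu x v) + uu x (uu y (uu x v)) +
    uu y (uu x (uu y v)) + uu x (uu y (uu x (uu y v))) = 0 := by
  have h1 := h (x * y) v
  simp only [uu_mul, map_add, h, map_zero, add_zero, zero_add] at h1
  rw [← h1]
  abel

theorem uu_E4 (x y : A) (v : V) : uu x (uu y (uu x v)) = 0 := by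
  have e1 := congrArg (uu x) (uu_E1 h x y v)
  simp only [map_add, h, map_zero, add_zero, zero_add] at e1
  have e2 := uu_E1 h x y (uu y v)
  simp only [h, map_zero, add_zero, zero_add] at e2
  -- `e1 : uvu + uvuv = 0`, `e2 : vuv + uvuv = 0`
  have e3 : uu x (uu y (uu x v)) = uu y (uu x (uu y v)) := by
    have := e1.trans e2.symm
    exact add_right_cancel this
  have e4 := congrArg (uu x) e3
  rw [h] at e4
  rw [← e4, add_zero] at e1
  exact e1

theorem uu_anti (x y : A) (v : V) : uu x (uu y v) = - uu y (uu x v) := by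
  have e1 := uu_E1 h x y v
  have e2 : uu x (uu y (uu x (uu y v))) = 0 := uu_E4 h x y (uu y v)
  rw [e2, uu_E4 h x y v, uu_E4 h y x v] at e1
  simp only [add_zero] at e1
  exact eq_neg_of_add_eq_zero_left e1

theorem uu_two (x y z : A) (v : V) : uu x (uu y (uu z v)) + uu x (uu y (uu z v)) = 0 := by
  have e1 := uu_anti h (x * y) z v
  simp only [uu_mul, map_add] at e1
  have a1 := uu_anti h x z v
  have a2 := uu_anti h y z v
  have e2 : uu x (uu y (uu z v)) = - uu z (uu x (uu y v)) := by
    calc uu x (uu y (uu z v)) = uu x (uu z v) + uu y (uu z v) + uu x (uu y (uu z v)) -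
          uu x (uu z v) - uu y (uu z v) := by abel
      _ = -(uu z (uu x v) + uu z (uu y v) + uu z (uu x (uu y v))) - uu x (uu z v) -
          uu y (uu z v) := by rw [e1]
      _ = -(uu z (uu x v) + uu z (uu y v) + uu z (uu x (uu y v))) - - uu z (uu x v) -
          - uu z (uu y v) := by rw [a1, a2]
      _ = - uu z (uu x (uu y v)) := by abel
  have e4 : uu z (uu x (uu y v)) = uu x (uu y (uu z v)) := by
    rw [uu_anti h z x, uu_anti h z y, map_neg, neg_neg]
  rw [e4] at e2
  nth_rewrite 1 [e2]
  rw [neg_add_cancel]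

end

theorem pf_UA : T_UA := by
  intro A V _ _ _ h n hn y z v
  have h' : ∀ (x : A) (v : V), uu x (uu x v) = 0 := h
  change uu z (uu y (uu n v)) = 0
  have key : ∀ y z : A, ∀ v : V, uu z (uu y (uu n v)) = 0 := by
    unfold Pw at hn
    induction hn using Subgroup.closure_induction with
    | mem a ha =>
      obtain ⟨x, rfl⟩ := ha
      intro y z v
      have e1 : uu (x ^ 2) v = uu x v + uu x v := by
        rw [pow_two, uu_mul, h', add_zero]
      rw [e1, map_add, map_add]
      exact uu_two h' z y x v
    | one =>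
      intro y z v
      rw [uu_one, map_zero, map_zero]
    | mul a b _ _ ha hb =>
      intro y z v
      rw [uu_mul, map_add, map_add, map_add, map_add, ha, hb, ha, add_zero, add_zero]
    | inv a _ ha =>
      intro y z v
      have e1 : uu a⁻¹ v = - uu a (a⁻¹ • v) := by
        rw [uu_apply, uu_apply, smul_inv_smul]
        abel
      rw [e1, map_neg, map_neg, ha, neg_zero]
  exact key y z v

end Pool.Agent.H18.GWD
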