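import Pool.Agent.H18.GW.Ext

/-!
# Board gwd, row UC: the derived series becomes stationary
-/

set_option autoImplicit false

open scoped commutatorElement

namespace Pool.Agent.H18.GWD

open Pool.Agent.H18.GW

theorem pf_UC (hFI : T_FI) : T_UC := by
  intro H _ N hN hcN hY
  have hDn : ∀ i, (derivedSeries H i).Normal := fun i => inferInstance
  -- (1)
  have h1 : ∀ (L : Subgroup H), L ≤ N → ∀ a i : ℕ, L.lowerCentralSeries a ≤ derivedSeries H 1 →
      L.lowerCentralSeries (a + 3 * i) ≤ derivedSeries H (1 + i) := by
    intro L hL a i ha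
    induction i with
    | zero => exact ha
    | succ i ih =>
      have e : a + 3 * (i + 1) = a + 3 * i + 1 + 1 + 1 := by ring
      rw [e, Subgroup.lowerCentralSeries_succ, Subgroup.lowerCentralSeries_succ,
        Subgroup.lowerCentralSeries_succ]
      refine (Subgroup.commutator_mono (Subgroup.commutator_mono
        (Subgroup.commutator_mono ih hL) hL) hL).trans ?_
      refine (hY _ (hDn (1 + i))).trans ?_
      have e2 : 1 + (i + 1) = (1 + i) + 1 := by ring
      rw [e2, derivedSeries_succ]
  have hd1 : derivedSeries H 1 = commutator H := derivedSeries_one H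
  have hL : derivedSeries H 1 ≤ N := by
    rw [hd1]
    exact hcN
  -- (3)
  have h3 : ∀ i : ℕ, derivedSeries H (1 + i) ≤
      (derivedSeries H 1).lowerCentralSeries (2 ^ i - 1) := by
    intro i
    induction i with
    | zero => exact le_rfl
    | succ i ih =>
      have e2 : 1 + (i + 1) = (1 + i) + 1 := by ring
      rw [e2, derivedSeries_succ]
      refine (Subgroup.commutator_mono ih ih).trans ?_
      have h4 := (hFI H (derivedSeries H 1) (hDn 1)).comm (2 ^ i - 1 + 1) (2 ^ i - 1 + 1)
      have h5 : 1 ≤ 2 ^ i := Nat.one_le_two_pow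
      have e3 : 2 ^ i - 1 + 1 + (2 ^ i - 1 + 1) = (2 ^ (i + 1) - 1) + 1 := by
        rw [pow_succ]
        omega
      rw [e3] at h4
      exact h4
  have h6 : (derivedSeries H 1).lowerCentralSeries 15 ≤ derivedSeries H 6 := by
    have := h1 (derivedSeries H 1) hL 0 5 le_rfl
    exact this
  have h7 : derivedSeries H 5 ≤ (derivedSeries H 1).lowerCentralSeries 15 := by
    have := h3 4
    exact this
  refine ⟨le_antisymm (derivedSeries_antitone H (by norm_num)) (h7.trans h6), ?_⟩
  have h8 := h1 N le_rfl 1 4 (by
    rw [hd1, Subgroup.lowerCentralSeries_succ, Subgroup.lowerCentralSeries_zero, commutator_def]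
    exact Subgroup.commutator_mono le_top le_top)
  exact h8

end Pool.Agent.H18.GWD
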