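import Pool.Agent.H18.GW.Targets2

/-!
# Board gwd, row UD: the explicit words are good
-/

set_option autoImplicit false

open scoped commutatorElement

namespace Pool.Agent.H18.GWD

open Pool.Agent.H18.GW Pool.Agent.H11.KT

/-- `⁅Y, H ^ 2⁆ ≤ Y'` if the squares act trivially on `Y / Y'` -/
theorem UD_aux {H : Type} [Group H] (Y : Subgroup H) (hY : Y.Normal)
    (h : ∀ y ∈ Y, ∀ x : H, ⁅y, x ^ 2⁆ ∈ ⁅Y, Y⁆) : ⁅Y, Pw 2 H⁆ ≤ ⁅Y, Y⁆ := by
  have hn : (⁅Y, Y⁆ : Subgroup H).Normal := inferInstance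
  rw [Subgroup.commutator_le]
  intro y hy n hn2
  have key : ∀ y ∈ Y, ⁅y, n⁆ ∈ ⁅Y, Y⁆ := by
    unfold Pw at hn2
    induction hn2 using Subgroup.closure_induction with
    | mem a ha =>
      obtain ⟨x, rfl⟩ := ha
      exact fun y hy => h y hy x
    | one =>
      intro y _
      rw [commutatorElement_one_right]
      exact Subgroup.one_mem _
    | mul a b _ _ ha hb =>
      intro y hy
      have e : ⁅y, a * b⁆ = ⁅y, a⁆ * (a * ⁅y, b⁆ * a⁻¹) := by
        simp only [commutatorElement_def]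
        group
      rw [e]
      exact Subgroup.mul_mem _ (ha y hy) (hn.conj_mem _ (hb y hy) a)
    | inv a _ ha =>
      intro y hy
      have e : ⁅y, a⁻¹⁆ = a⁻¹ * ⁅y, a⁆⁻¹ * (a⁻¹)⁻¹ := by
        simp only [commutatorElement_def]
        group
      rw [e]
      exact hn.conj_mem _ (Subgroup.inv_mem _ (ha y hy)) _
  exact key y hy

theorem pf_UD (hUE : T_UE) (hUB : T_UB) (hUG : T_UG) : T_UD := by
  intro m c hc
  refine ⟨⟨13, 2, two_pos, hUG 2 _ (max m 2) fun H _ hlaw => ?_⟩,
    ⟨13, 2, two_pos, hUG 2 _ (max m 2) fun H _ hlaw => ?_⟩⟩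
  · obtain ⟨h1, h2⟩ := (hUE m c hc H).1 hlaw
    refine ⟨h1, fun Y hY => ?_⟩
    have h3 := UD_aux Y hY (h2 Y hY)
    have hN : (Pw 2 H).Normal := by
      constructor
      intro n hn g
      unfold Pw at hn ⊢
      induction hn using Subgroup.closure_induction with
      | mem a ha =>
        obtain ⟨x, rfl⟩ := ha
        exact Subgroup.subset_closure ⟨g * x * g⁻¹, by simp [pow_two]⟩
      | one => simp
      | mul a b _ _ ha hb =>
        have e : g * (a * b) * g⁻¹ = g * a * g⁻¹ * (g * b * g⁻¹) := by group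
        rw [e]
        exact Subgroup.mul_mem _ ha hb
      | inv a _ ha =>
        have e : g * a⁻¹ * g⁻¹ = (g * a * g⁻¹)⁻¹ := by group
        rw [e]
        exact Subgroup.inv_mem _ ha
    refine le_trans ?_ h3
    refine le_trans (Subgroup.commutator_le_left _ _) (Subgroup.commutator_le_left _ _)
  · obtain ⟨h1, h2⟩ := (hUE m c hc H).2 hlaw
    refine ⟨h1, fun Y hY => ?_⟩
    exact le_trans (Subgroup.commutator_mono (Subgroup.commutator_mono le_rfl le_top) le_top)
      (hUB H Y hY (h2 Y hY))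

end Pool.Agent.H18.GWD
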