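import Pool.Agent.H18.GWD.VN

/-!
# Board gwd, row WD: the derived group of `w(R)` is bounded
-/

set_option autoImplicit false

open scoped commutatorElement

namespace Pool.Agent.H18.GWD

open Pool.Agent.H18.GW Pool.Agent.H11.EL

theorem pf_WD (hWA : T_WA) (hWB : T_WB) : T_WD := by
  intro R _ hfg N hN hNi hnil r w
  obtain ⟨m, hm⟩ := hWA R hfg N hN hnil r w
  have hV : (Vb w R).Normal := inferInstance
  have hI : (Vb w R ⊓ N).Normal := inferInstance
  set A0 : Subgroup R := ⁅Vb w R ⊓ N, Vb w R ⊓ N⁆ with hA0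
  have hA0n : A0.Normal := by
    rw [hA0]
    infer_instance
  set π := QuotientGroup.mk' A0 with hπ
  have hs : Function.Surjective π := QuotientGroup.mk'_surjective A0
  have hmap := Vb_map w π hs
  have hrel : ((Vb w R ⊓ N).map π).relIndex (Vb w (R ⧸ A0)) ≠ 0 := by
    have h1 : (Vb w R ⊓ N).relIndex (Vb w R) ≠ 0 := by
      rw [Subgroup.inf_relIndex_left]
      have h2 : N.FiniteIndex := hNi
      exact fun h => hNi.index_ne_zero (Nat.eq_zero_of_zero_dvd
        (h ▸ Subgroup.relIndex_dvd_index_of_normal N (Vb w R)))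
    have h5 : A0 ≤ Vb w R ⊓ N := by
      rw [hA0]
      exact Subgroup.commutator_le_left _ _
    rw [← hmap, Subgroup.relIndex_map_map, hπ, QuotientGroup.ker_mk', sup_eq_left.2 h5,
      sup_eq_left.2 (h5.trans inf_le_left)]
    exact h1
  obtain ⟨n, hn⟩ := hWB (R ⧸ A0) (fg_quot π hs hfg) ((Vb w R ⊓ N).map π) (hI.map π hs)
    (by
      rintro _ ⟨a, ha, rfl⟩ _ ⟨b, hb, rfl⟩
      have h2 : ⁅π a, π b⁆ = 1 := by
        rw [← map_commutatorElement]
        exact (QuotientGroup.eq_one_iff _).2 (Subgroup.commutator_mem_commutator ha hb)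
      exact commutatorElement_eq_one_iff_mul_comm.1 h2) r w
    (by
      rw [← hmap]
      exact Subgroup.map_mono inf_le_left) hrel
  refine ⟨n + m, fun g hg => pw_ext A0 hm (hn _ ?_)⟩
  rw [← hmap, ← Subgroup.map_commutator]
  exact ⟨g, hg, rfl⟩

end Pool.Agent.H18.GWD
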