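import Pool.Agent.H11.KT.All
import Pool.Agent.H11.KT.Main
import Pool.Agent.H84.EL.VE
import Pool.Agent.H18.GW.Targets2
import Pool.Agent.H18.GWD.QQ
import Pool.Agent.H17.GWD.PT
import Pool.Agent.H11.GWD.GN
import Pool.Agent.H1.GW.FN
import Pool.Agent.H26.GWD.KD
import Pool.Agent.H36.GWD.HB
import Pool.Agent.H11.GWD.CB
import Pool.Agent.H97.GWD.SX
import Pool.Agent.H26.GWD.HC
import Pool.Agent.H36.GWD.NS
import Pool.Agent.H26.GWD.GC
import Pool.Agent.H26.GWD.ZZ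
import Pool.Agent.H18.GWD.NV
import Pool.Agent.H11.GWD.WA
import Pool.Agent.H4.GWD.WB
import Pool.Agent.H18.GWD.WD
import Pool.Agent.H18.GWD.LM
import Pool.Agent.H18.GWD.LW
import Pool.Agent.H18.GWD.FI
import Pool.Agent.H18.GWD.PO
import Pool.Agent.H18.GWD.SB
import Pool.Agent.H18.GWD.PM
import Pool.Agent.H18.GWD.DD
import Pool.Agent.H18.GWD.SW
import Pool.Agent.H18.GWD.NX
import Pool.Agent.H89.GWD.RP
import Pool.Agent.H18.GWD.FK
import Pool.Agent.H18.GWD.FM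
import Pool.Agent.H26.GWD.FW
import Pool.Agent.H18.GWD.VN
import Pool.Agent.H26.GWD.KK
import Pool.Agent.H97.GWD.CI
import Pool.Agent.H26.GWD.MW
import Pool.Agent.H18.GWD.FO
import Pool.Agent.H26.GWD.RG
import Pool.Agent.H26.GWD.RD
import Pool.Agent.H18.GWD.UA
import Pool.Agent.H73.GWD.UB
import Pool.Agent.H18.GWD.UC
import Pool.Agent.H44.GW.UE
import Pool.Agent.H36.GWD.UG
import Pool.Agent.H18.GWD.UD

/-!
# MP_0b603e_al: good words, assembly of the modules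
-/

set_option autoImplicit false

open scoped commutatorElement

namespace Pool.Agent.H18.GWD

open Pool.Agent.H18.GW Pool.Agent.H11.EL Pool.Agent.H11.KT

theorem all_QQ : T_QQ := pf_QQ Pool.Agent.H58.KT.pf_PP Pool.Agent.H35.EL.pf_nf

theorem all_PT : T_PT := Pool.Agent.H17.GWD.pf_PT all_KP

theorem all_GN : T_GN := Pool.Agent.H11.GWD.pf_GN all_QQ all_PT

theorem all_FN : T_FN := Pool.Agent.H1.GW.pf_FN

theorem all_KD : T_KD := Pool.Agent.H26.GWD.pf_KD all_FN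

theorem all_HB : T_HB := Pool.Agent.H36.GWD.pf_HB all_KP

theorem all_CB : T_CB := Pool.Agent.H11.GWD.pf_CB all_QQ all_PT Pool.Agent.H35.EL.pf_nf

theorem all_NS : T_NS := Pool.Agent.H36.GWD.pf_NS Pool.Agent.H97.GWD.pf_SX
  Pool.Agent.H26.GWD.pf_HC all_GS2 all_FS Pool.Agent.H27.KT.pf_PI
  (Pool.Agent.H60.KT.pf_PR Pool.Agent.H27.KT.pf_CI)

theorem all_GC : T_GC := Pool.Agent.H26.GWD.pf_GC all_NS

theorem all_ZZ : T_ZZ := Pool.Agent.H26.GWD.pf_ZZ all_GN all_KD all_HB all_CB all_GC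

theorem all_FI : T_FI := pf_FI

theorem all_PO : T_PO := pf_PO (pf_LW pf_LM) all_FI

theorem all_DD : T_DD := pf_DD all_PO (pf_PM pf_SB) pf_SB

theorem all_WD : T_WD := pf_WD (Pool.Agent.H11.GWD.pf_WA Pool.Agent.H85.EL.pf_nb)
  (Pool.Agent.H4.GWD.pf_WB Pool.Agent.H84.EL.pf_ve)

theorem all_FK : T_FK := pf_FK all_FN (Pool.Agent.H89.GWD.pf_RP pf_NX)

theorem all_FW : T_FW := Pool.Agent.H26.GWD.pf_FW (pf_FM all_FK pf_SW)

theorem all_VN : T_VN := pf_VN pf_NV all_WD all_DD all_FW pf_BX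

theorem all_MW : T_MW := Pool.Agent.H26.GWD.pf_MW all_ZZ all_VN Pool.Agent.H26.GWD.pf_KK
  Pool.Agent.H97.GWD.pf_CI

theorem all_RD : T_RD := Pool.Agent.H26.GWD.pf_RD Pool.Agent.H26.GWD.pf_RG

theorem all_UG : T_UG := Pool.Agent.H36.GWD.pf_UG all_FN all_RD (pf_UC all_FI)

theorem all_UD : T_UD := pf_UD Pool.Agent.H44.GW.pf_UE (Pool.Agent.H73.GWD.pf_UB pf_UA) all_UG

/-- simple commutators of `e`-th powers in finite soluble groups -/
theorem all_CP (r : ℕ) (w : FreeGroup (Fin r)) (c e : ℕ) (he : 0 < e) (hw : GoodCE c e w) :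
    ∃ M : ℕ, ∀ (G : Type) [Group G] [Finite G], Group.IsSolvable G → ∀ x : ℕ → G,
      PW w M (scm c fun i => x i ^ e) := by
  obtain ⟨M, hM⟩ := all_CB r w c e he hw 1
  exact ⟨M, fun G _ _ hG x => hM G hG _ fun i _ => pow_w2 w e (x i)⟩

end Pool.Agent.H18.GWD
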