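import Pool.Agent.H18.GW.Targets2

/-!
# Board gwd, row FM: if `w` depends only on the cosets of `N` then `w(R) ∩ N` is divisible
-/

set_option autoImplicit false

open scoped commutatorElement

namespace Pool.Agent.H18.GWD

open Pool.Agent.H18.GW Pool.Agent.H11.EL

theorem pf_FM (hFK : T_FK) (hSW : T_SW) : T_FM := by
  intro R _ hfg N hN hNi hnil r w hab hw
  obtain ⟨p, hp1, hp⟩ := Nat.exists_infinite_primes (N.index + 1)
  have hI : (Vb w R ⊓ N).Normal := inferInstance
  obtain ⟨K, hK, hKN, ⟨j, hj⟩, hKM⟩ := hFK R hfg N hN hnil (Vb w R ⊓ N) hI inf_le_right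
    (fun x hx y hy => hab x hx.1 y hy.1) p hp
  have hN0 : N.index ≠ 0 := hNi.index_ne_zero
  have hidx : K.index = p ^ j * N.index := by
    rw [← hj]
    exact (Subgroup.relIndex_mul_index hKN).symm
  have hK0 : K.index ≠ 0 := by
    rw [hidx]
    exact mul_ne_zero (pow_ne_zero _ hp.ne_zero) hN0
  have hKfin : K.FiniteIndex := ⟨hK0⟩
  set π := QuotientGroup.mk' K with hπ
  have hs : Function.Surjective π := QuotientGroup.mk'_surjective K
  have hfin : Finite (R ⧸ K) := inferInstance
  have hPi : (N.map π).index = N.index := by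
    refine Subgroup.index_map_eq N hs ?_
    rw [hπ, QuotientGroup.ker_mk']
    exact hKN
  have hPc : Nat.card (N.map π) = p ^ j := by
    have h1 := Subgroup.card_mul_index (N.map π)
    have h2 : Nat.card (R ⧸ K) = K.index := rfl
    rw [hPi, h2, hidx] at h1
    exact Nat.eq_of_mul_eq_mul_right (Nat.pos_of_ne_zero hN0) h1
  have hco : (Nat.card (N.map π)).Coprime (N.map π).index := by
    rw [hPc, hPi]
    apply Nat.Coprime.pow_left
    rw [Nat.Prime.coprime_iff_not_dvd hp]
    intro h
    have := Nat.le_of_dvd (Nat.pos_of_ne_zero hN0) h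
    omega
  have h3 := hSW (R ⧸ K) (N.map π) (hN.map π hs) hco r w (by
    intro g h hgh
    have h4 : ∀ i, ∃ n ∈ N, π n = (g i)⁻¹ * h i := hgh
    choose n hn hn' using h4
    choose g' hg' using fun i => hs (g i)
    have h5 := hw g' (fun i => g' i * n i) (fun i => by rw [inv_mul_cancel_left]; exact hn i)
    have h6 := congrArg π h5
    rw [lift_map, lift_map] at h6
    have h7 : (fun i => π (g' i)) = g := funext hg'
    have h8 : (fun i => π (g' i * n i)) = h := by
      funext i
      rw [map_mul, hg', hn', mul_inv_cancel_left]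
    rwa [h7, h8] at h6)
  refine ⟨p, hp, fun x hx => hKM x ?_ hx⟩
  have h9 : π x ∈ Vb w (R ⧸ K) ⊓ N.map π := by
    refine ⟨?_, ⟨x, hx.2, rfl⟩⟩
    rw [← Vb_map w π hs]
    exact ⟨x, hx.1, rfl⟩
  rw [h3, Subgroup.mem_bot] at h9
  exact (QuotientGroup.eq_one_iff x).1 h9

end Pool.Agent.H18.GWD
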