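import Pool.Agent.H18.GWD.All

/-!
# MP_0b603e_al: good words, the final statements
-/

set_option autoImplicit false

open scoped commutatorElement

namespace Pool.Agent.H18.GWD

open Pool.Agent.H18.GW Pool.Agent.H11.KT

/-- the width of a good word -/
theorem main_width (r : ℕ) (w : FreeGroup (Fin r)) (hw : GoodWord w) (ρ d : ℕ) :
    ∃ K : ℕ, ∀ (G : Type) [Group G] [Finite G],
      (∃ S : Subgroup G, S.Normal ∧ Group.IsSolvable S ∧ S.index ≤ ρ) →
      (∃ s : Finset G, s.card ≤ d ∧ Subgroup.closure (s : Set G) = ⊤) →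
      ∀ g ∈ Subgroup.closure (Set.range (fun f : Fin r → G => FreeGroup.lift f w)),
        ∃ l : List G, l.length ≤ K ∧
          (∀ x ∈ l, x ∈ Set.range (fun f : Fin r → G => FreeGroup.lift f w) ∨
            x⁻¹ ∈ Set.range (fun f : Fin r → G => FreeGroup.lift f w)) ∧
          l.prod = g :=
  all_MW r w hw ρ d

/-- simple commutators of powers -/
theorem main_powers (r : ℕ) (w : FreeGroup (Fin r)) (c e : ℕ) (he : 0 < e)
    (hw : GoodCE c e w) :
    ∃ M : ℕ, ∀ (G : Type) [Group G] [Finite G], Group.IsSolvable G → ∀ x : ℕ → G,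
      ∃ l : List G, l.length ≤ M ∧
        (∀ x ∈ l, x ∈ Set.range (fun f : Fin r → G => FreeGroup.lift f w) ∨
          x⁻¹ ∈ Set.range (fun f : Fin r → G => FreeGroup.lift f w)) ∧
        l.prod = scm c fun i => x i ^ e :=
  all_CP r w c e he hw

/-- forcing words and the explicit words are good -/
theorem main_good (r : ℕ) (w : FreeGroup (Fin r)) (hw : ForcingWord w) : GoodWord w :=
  pf_FO r w hw

theorem main_explicit (m : ℕ) (c : FreeGroup (Fin m)) (hc : c ∈ commutator (FreeGroup (Fin m))) :
    GoodWord (gword wordB m c) ∧ GoodWord (gword wordC m c) :=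
  all_UD m c hc

end Pool.Agent.H18.GWD
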